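import Pool.Agent.H90.STK.Defs

/-!
# Foundations for families of lines which are not sticky: definitions

A family of lines of resolution `J` is a random triple `(u, d, t)` on a finite probability space
`(Ω, p)`: the line `u + s d` in dimension `m` plus time, seen at the time `s = t / 2 ^ J`, where
`t < 2 ^ J` may depend on the line. `Z` is side information.
-/

set_option autoImplicit false

namespace Pool.KAF

open Finset Real
open Pool.Agent.H49.Ent Pool.Agent.H32.Dense Pool.STK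

/-- Conditional probability of the actual value of `A` given the actual value of `B`. -/
noncomputable def cp {Ω S T : Type} [Fintype Ω] (p : Ω → ℝ) (A : Ω → S) (B : Ω → T) (ω : Ω) : ℝ :=
  law p (fun v => (A v, B v)) (A ω, B ω) / law p B (B ω)

/-- Pointwise conditional information of `A` given `B`. Its mean is `CH p A B`. -/
noncomputable def ci {Ω S T : Type} [Fintype Ω] (p : Ω → ℝ) (A : Ω → S) (B : Ω → T) (ω : Ω) : ℝ :=
  -Real.log (cp p A B ω)

/-- Position, rounded at scale `2 ^ (-r)`, at the time `t / 2 ^ J`. -/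
noncomputable def X {Ω : Type} {m : ℕ} (J : ℕ) (u d : Ω → Fin m → ℝ) (t : Ω → ℕ) (r : ℕ) (ω : Ω) :
    Fin m → ℤ := fl r fun i => u ω i + (t ω : ℝ) / 2 ^ J * d ω i

/-- The line. -/
def li {Ω : Type} {m : ℕ} (u d : Ω → Fin m → ℝ) (ω : Ω) : (Fin m → ℝ) × (Fin m → ℝ) := (u ω, d ω)

/-- A family of lines of resolution `J`. -/
structure Fam {Ω : Type} [Fintype Ω] {m : ℕ} (J : ℕ) (p : Ω → ℝ) (u d : Ω → Fin m → ℝ)
    (t : Ω → ℕ) : Prop where
  law : IsLaw p
  u_nonneg : ∀ ω i, 0 ≤ u ω i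
  u_lt : ∀ ω i, u ω i < 1
  d_nonneg : ∀ ω i, 0 ≤ d ω i
  d_lt : ∀ ω i, d ω i < 1
  t_lt : ∀ ω, t ω < 2 ^ J

/-- The conditional probabilities of `A` given `B` are at most `δ`. -/
def Sup {Ω S T : Type} [Fintype Ω] (p : Ω → ℝ) (A : Ω → S) (B : Ω → T) (δ : ℝ) : Prop :=
  ∀ ω, law p (fun v => (A v, B v)) (A ω, B ω) ≤ δ * law p B (B ω)

/-- A full family: given `Z` there is one line in each direction, and the pair of the direction and
the time is uniformly distributed up to the factor `exp (θ J)`. -/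
structure Full {Ω ζ : Type} [Fintype Ω] {m : ℕ} (J : ℕ) (θ : ℝ) (p : Ω → ℝ)
    (u d : Ω → Fin m → ℝ) (t : Ω → ℕ) (Z : Ω → ζ) : Prop where
  fam : Fam J p u d t
  sec : Det p (fun ω => (Fl d J ω, Z ω)) (li u d)
  den : Sup p (fun ω => (Fl d J ω, t ω)) Z (Real.exp (θ * J) / 2 ^ ((m + 1) * J))

/-- The entropy of the position given a coarse position is at least `μ (J - w) - σ J`, for full
families of resolution `J`. -/
def Good (m : ℕ) (μ σ θ : ℝ) (J : ℕ) : Prop :=
  ∀ (Ω ζ : Type) [Fintype Ω] (p : Ω → ℝ) (u d : Ω → Fin m → ℝ) (t : Ω → ℕ) (Z : Ω → ζ),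
    Full J θ p u d t Z → ∀ w ≤ J,
      μ * ((J : ℝ) - w) ≤ CH p (X J u d t J) (fun ω => (X J u d t w ω, (t ω, Z ω))) + σ * J

/-- The same for small `θ` and large `J`. -/
def GoodEv (m : ℕ) (μ σ : ℝ) : Prop := ∃ θ > 0, ∃ J₀ : ℕ, ∀ J ≥ J₀, Good m μ σ θ J

/-- The law `p` conditioned on the event `E`. -/
noncomputable def rs {Ω : Type} [Fintype Ω] (p : Ω → ℝ) (E : Set Ω) : Ω → ℝ :=
  Pool.Agent.H49.Ent.cond p (fun ω => ω ∈ E) True

/-- Probability of an event. -/
noncomputable def Pr {Ω : Type} [Fintype Ω] (p : Ω → ℝ) (E : Set Ω) : ℝ :=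
  Pool.Agent.H49.Ent.law p (fun ω => ω ∈ E) True

end Pool.KAF
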