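import Pool.Agent.H56.KAF.Defs

/-!
# Foundations for families of lines which are not sticky: statements of the modules
-/

set_option autoImplicit false

namespace Pool.KAF

open Finset Real
open Pool.Agent.H49.Ent Pool.Agent.H32.Dense Pool.STK

/-! ### Tools -/

/-- Counting translations. -/
def CNTStmt : Prop :=
  ∀ (m J w : ℕ), w ≤ J → ∀ (x : Fin m → ℝ) (y : Fin m → ℤ),
    ((univ.filter fun a : Fin m → Fin (2 ^ J) =>
      fl w (fun i => (x i + ((a i : ℕ) : ℝ) / 2 ^ J) / 2) = y).card : ℝ) ≤ (2 * 2 ^ (J - w)) ^ m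

/-- Number of values. -/
def VALStmt : Prop :=
  ∀ (m J : ℕ) (Ω : Type) [Fintype Ω] (p : Ω → ℝ) (u d : Ω → Fin m → ℝ) (t : Ω → ℕ),
    Fam J p u d t →
    (∀ r : ℕ, ∃ F : Finset ((Fin m → ℤ) × ℕ), (∀ ω, (X J u d t r ω, t ω) ∈ F) ∧
      F.card = 2 ^ (m * (r + 1) + J)) ∧
    (∃ F : Finset (Fin m → ℤ), (∀ ω, Fl d J ω ∈ F) ∧ F.card = 2 ^ (m * J)) ∧
    (∀ r s : ℕ, r ≤ s → ∃ f : (Fin m → ℤ) → Fin m → ℤ, ∀ ω, X J u d t r ω = f (X J u d t s ω))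

/-- Jensen: the entropy is at least minus the logarithm of the mean of the probabilities. -/
def JENStmt : Prop :=
  ∀ (Ω S T : Type) [Fintype Ω] (p : Ω → ℝ) (A : Ω → S) (B : Ω → T), IsLaw p →
    0 < Ex p (cp p A B) ∧ -Real.log (Ex p (cp p A B)) ≤ CH p A B

/-- The mean of the conditional probabilities as a sum over values. -/
def EXCStmt : Prop :=
  ∀ (Ω S T : Type) [Fintype Ω] [DecidableEq S] [DecidableEq T] (p : Ω → ℝ) (A : Ω → S)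
    (B : Ω → T), IsLaw p →
    Ex p (cp p A B) = ∑ b ∈ univ.image B, ∑ a ∈ univ.image A,
      law p (fun v => (A v, B v)) (a, b) ^ 2 / law p B b

/-- Second moments of mixtures of independent laws. -/
def GSMStmt : Prop :=
  ∀ (I G V : Type) [Fintype I] [DecidableEq I] [Fintype G] (F : Finset V) (c : I → ℝ)
    (ν : I → G → ℝ) (K : I → G → V → ℝ), (∀ i, 0 ≤ c i) → (∀ i, IsLaw (ν i)) →
    (∀ i g a, 0 ≤ K i g a) →
    ∑ g : I → G, (∏ i, ν i (g i)) * ∑ a ∈ F, (∑ i, c i * K i (g i) a) ^ 2 ≤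
      ∑ i, c i ^ 2 * ∑ γ, ν i γ * ∑ a ∈ F, K i γ a ^ 2 +
      ∑ a ∈ F, (∑ i, c i * ∑ γ, ν i γ * K i γ a) ^ 2

/-- Every law is the image of a law which is positive everywhere. -/
def SUBStmt : Prop :=
  ∀ (Ω : Type) [Fintype Ω] (p : Ω → ℝ), IsLaw p → ∃ (Ω' : Type) (_ : Fintype Ω') (p' : Ω' → ℝ)
    (f : Ω' → Ω), IsLaw p' ∧ (∀ ω, 0 < p' ω) ∧ Marg p' p f

/-- Restriction to an event. -/
def RSTStmt : Prop :=
  ∀ (Ω S T : Type) [Fintype Ω] (p : Ω → ℝ), IsLaw p → ∀ E : Set Ω, 0 < Pr p E →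
    IsLaw (rs p E) ∧ (∀ ω, 0 < rs p E ω ↔ 0 < p ω ∧ ω ∈ E) ∧
    (∀ (A : Ω → S) (a : S), law (rs p E) A a ≤ law p A a / Pr p E) ∧
    ∀ (A : Ω → S) (Z : Ω → T), CH (rs p E) A Z * Pr p E ≤ CH p A Z ∧
      ∀ F : Finset S, (∀ ω, A ω ∈ F) →
        CH p A Z ≤ CH (rs p E) A Z + Real.log 2 + (1 - Pr p E) * Real.log F.card

/-- Tails of the pointwise information. -/
def TALStmt : Prop :=
  ∀ (Ω S T : Type) [Fintype Ω] (p : Ω → ℝ) (A : Ω → S) (B : Ω → T) (F : Finset S), IsLaw p →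
    (∀ ω, A ω ∈ F) →
    (∀ ω, 0 < p ω → 0 < cp p A B ω ∧ cp p A B ω ≤ 1) ∧
    CH p A B = Ex p (ci p A B) ∧
    (∀ s : ℝ, Pr p {ω | Real.log F.card + s < ci p A B ω} ≤ Real.exp (-s)) ∧
    Ex p (fun ω => max 0 (ci p A B ω - Real.log F.card)) ≤ 1

/-- Counting values of large probability. -/
def CNVStmt : Prop :=
  ∀ (Ω S T : Type) [Fintype Ω] (p : Ω → ℝ) (A : Ω → S) (Z : Ω → T) (E : Set Ω) (h : ℝ),
    IsLaw p → 0 < Pr p E →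
    (∀ ω ∈ E, 0 < p ω →
      Real.exp (-h) * law p Z (Z ω) ≤ law p (fun v => (A v, Z v)) (A ω, Z ω)) →
    CH (rs p E) A Z ≤ h

/-! ### Covering by random translates, random sections -/

/-- The constant of the covering lemma. -/
noncomputable def Cm (m : ℕ) : ℝ := 100 ^ m

/-- Covering by `N` random translates. -/
def COVStmt : Prop :=
  ∀ (m J N : ℕ) (Ω ζ : Type) [Fintype Ω] (p : Ω → ℝ) (u d : Ω → Fin m → ℝ) (t : Ω → ℕ)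
    (Z : Ω → ζ), Fam J p u d t → (∀ ω, 0 < p ω) → 1 ≤ N → ∀ w ≤ J, ∀ δD δw δl : ℝ,
    0 ≤ δD → 0 ≤ δw → 0 ≤ δl → Sup p (Fl d J) Z δD →
    Sup p (fun ω => (X J u d t w ω, t ω)) Z δw → Sup p t (fun ω => (li u d ω, Z ω)) δl →
    ∃ (Ω' ζ' : Type) (_ : Fintype Ω') (p' : Ω' → ℝ) (u' d' : Ω' → Fin m → ℝ) (t' : Ω' → ℕ)
      (Z' : Ω' → ζ'), Fam J p' u' d' t' ∧ (∀ ω, 0 < p' ω) ∧
      Sup p' t' (fun ω => (li u' d' ω, Z' ω)) δl ∧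
      Ex p' (cp p' (Fl d' J) Z') ≤ Cm m * (δD / N + 1 / 2 ^ (m * J)) ∧
      Ex p' (cp p' (fun ω => (X J u' d' t' w ω, t' ω)) Z') ≤
        Cm m * (δw / N + δl / 2 ^ (m * w)) ∧
      CH p' (fun ω => (X J u' d' t' J ω, t' ω)) Z' ≤
        Real.log N + CH p (fun ω => (X J u d t J ω, t ω)) Z + cc m

/-- Random sections: one line for each direction. -/
def SECStmt : Prop :=
  ∀ (m J : ℕ) (Ω ζ : Type) [Fintype Ω] (p : Ω → ℝ) (u d : Ω → Fin m → ℝ) (t : Ω → ℕ)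
    (Z : Ω → ζ), Fam J p u d t → (∀ ω, 0 < p ω) → ∀ (w : ℕ) (δl : ℝ), 0 ≤ δl →
    Sup p t (fun ω => (li u d ω, Z ω)) δl →
    ∃ (Ω' ζ' : Type) (_ : Fintype Ω') (p' : Ω' → ℝ) (u' d' : Ω' → Fin m → ℝ) (t' : Ω' → ℕ)
      (Z' : Ω' → ζ'), Fam J p' u' d' t' ∧ Det p' (fun ω => (Fl d' J ω, Z' ω)) (li u' d') ∧
      Sup p' t' (fun ω => (Fl d' J ω, Z' ω)) δl ∧
      Ex p' (cp p' (Fl d' J) Z') ≤ Ex p (cp p (Fl d J) Z) ∧
      Ex p' (cp p' (fun ω => (X J u' d' t' w ω, t' ω)) Z') ≤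
        Ex p (cp p (fun ω => (X J u d t w ω, t ω)) Z) + δl * Ex p (cp p (Fl d J) Z) ∧
      CH p' (fun ω => (X J u' d' t' J ω, t' ω)) Z' ≤ CH p (fun ω => (X J u d t J ω, t ω)) Z

/-- Restriction to a full family. -/
def FINStmt : Prop :=
  ∀ (m J : ℕ) (Ω ζ : Type) [Fintype Ω] (p : Ω → ℝ) (u d : Ω → Fin m → ℝ) (t : Ω → ℕ)
    (Z : Ω → ζ), Fam J p u d t → Det p (fun ω => (Fl d J ω, Z ω)) (li u d) →
    ∀ κ δ K θ : ℝ, 0 < κ → 0 ≤ δ → 8 ≤ K → Ex p (cp p (Fl d J) Z) ≤ κ →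
    Sup p t (fun ω => (Fl d J ω, Z ω)) δ → 2 * K * κ * δ * 2 ^ ((m + 1) * J) ≤ Real.exp (θ * J) →
    ∃ E : Set Ω, 1 - 3 / K ≤ Pr p E ∧ Full J θ (rs p E) u d t Z

/-! ### One type -/

/-- The inequality for families with bounded densities. -/
def ONEStmt : Prop :=
  ∀ m : ℕ, ∃ C : ℝ, 0 ≤ C ∧ ∀ (μ σ θ : ℝ) (J : ℕ), 16 ≤ J → Good m μ σ θ J →
    ∀ (Ω ζ : Type) [Fintype Ω] (p : Ω → ℝ) (u d : Ω → Fin m → ℝ) (t : Ω → ℕ) (Z : Ω → ζ),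
    Fam J p u d t → ∀ w ≤ J, ∀ hD hw ht hJ : ℝ, Sup p (Fl d J) Z (Real.exp (-hD)) →
    Sup p (fun ω => (X J u d t w ω, t ω)) Z (Real.exp (-hw)) →
    Sup p t (fun ω => (li u d ω, Z ω)) (Real.exp (-ht)) →
    CH p (fun ω => (X J u d t J ω, t ω)) Z ≤ hJ → hD ≤ m * J * Real.log 2 →
    J * Real.log 2 - ht + C + Real.log J ≤ θ * J →
    μ * ((J : ℝ) - w) ≤ hJ - hw +
      max 0 (m * ((J : ℝ) - w) * Real.log 2 + hw - J * Real.log 2 - hD) +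
      max 0 (J * Real.log 2 - ht) + σ * J + C

/-- Restriction to a type: densities increase little. -/
def RTYStmt : Prop :=
  ∀ (Ω L ζ : Type) [Fintype Ω] (p : Ω → ℝ) (l : Ω → L) (Z : Ω → ζ), IsLaw p →
    ∀ (E : Set Ω) (s : ℝ), 0 ≤ s → 3 * Real.exp (-s) ≤ Pr p E →
    ∃ E' : Set Ω, E' ⊆ E ∧ Pr p E ≤ Pr p E' + 2 * Real.exp (-s) ∧
      (∀ (S : Type) (A : Ω → S) (δ : ℝ), 0 ≤ δ →
        (∀ ω ∈ E, law p (fun v => (A v, Z v)) (A ω, Z ω) ≤ δ * law p Z (Z ω)) →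
        Sup (rs p E') A Z (Real.exp (2 * s) * δ)) ∧
      (∀ (S : Type) (A : Ω → S) (δ : ℝ), 0 ≤ δ →
        (∀ ω ∈ E, law p (fun v => (A v, (l v, Z v))) (A ω, (l ω, Z ω)) ≤
          δ * law p (fun v => (l v, Z v)) (l ω, Z ω)) →
        Sup (rs p E') A (fun ω => (l ω, Z ω)) (Real.exp (2 * s) * δ))

/-! ### All families -/

/-- The inequality for all families, with finite resolution and explicit errors. -/
def TYPStmt : Prop :=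
  ∀ (m : ℕ) (ε : ℝ), 0 < ε → ∃ C : ℝ, 0 ≤ C ∧ ∀ (μ σ θ θ₁ : ℝ) (J : ℕ), 16 ≤ J → 0 ≤ σ →
    Good m μ σ θ J → 0 < θ₁ → θ₁ * J + 2 * ε * J + C + Real.log J ≤ θ * J →
    ∀ (Ω ζ : Type) [Fintype Ω] (p : Ω → ℝ) (u d : Ω → Fin m → ℝ) (t : Ω → ℕ) (Z : Ω → ζ),
    Fam J p u d t → ∀ w ≤ J,
    μ * ((J : ℝ) - w) ≤ CH p (fun ω => (X J u d t J ω, t ω)) Z -
      CH p (fun ω => (X J u d t w ω, t ω)) Z +
      Ex p (fun ω => max 0 (m * ((J : ℝ) - w) * Real.log 2 +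
        ci p (fun v => (X J u d t w v, t v)) Z ω - J * Real.log 2 - ci p (Fl d J) Z ω)) +
      (σ + θ₁ + 7 * ε) * J + C +
      |μ| * J * (Pr p {ω | ci p t (fun v => (li u d v, Z v)) ω < J * Real.log 2 - θ₁ * J} +
        C * Real.exp (-(ε * J)))

/-- **Theorem A.** The extremal inequality for full families implies the inequality for all
families whose times are almost uniformly distributed given the line, with the price which is not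
covered by the surplus. -/
def THAStmt : Prop :=
  ∀ (m : ℕ) (μ σ η : ℝ), GoodEv m μ σ → 0 ≤ σ → 0 < η → ∃ θ > 0, ∃ J₀ : ℕ, ∀ J ≥ J₀,
    ∀ (Ω ζ : Type) [Fintype Ω] (p : Ω → ℝ) (u d : Ω → Fin m → ℝ) (t : Ω → ℕ) (Z : Ω → ζ),
    Fam J p u d t → J * Real.log 2 ≤ CH p t (fun ω => (li u d ω, Z ω)) + θ * J → ∀ w ≤ J,
    μ * ((J : ℝ) - w) ≤ CH p (X J u d t J) (fun ω => (X J u d t w ω, (t ω, Z ω))) +
      (σ + η) * J + Ex p (fun ω => max 0 (m * ((J : ℝ) - w) * Real.log 2 +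
        ci p (X J u d t w) (fun v => (t v, Z v)) ω - ci p (Fl d J) Z ω))

end Pool.KAF
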