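import Pool.Agent.H56.KAF.Stmts

/-!
# All families: types
-/

set_option autoImplicit false

namespace Pool.KAF

open Finset Real
open Pool.Agent.H49.Ent Pool.Agent.H32.Dense Pool.STK

open Classical in
lemma Pr_eq_typ {Ω : Type} [Fintype Ω] (p : Ω → ℝ) (E : Set Ω) :
    Pr p E = ∑ ω, (if ω ∈ E then p ω else 0) := by
  unfold Pr Pool.Agent.H49.Ent.law
  refine Finset.sum_congr rfl fun ω _ => ?_
  by_cases h : ω ∈ E <;> simp [h]

/-- `cp ≤ exp (-h)` from `h ≤ ci`. -/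
lemma law_le_of_ci {Ω S T : Type} [Fintype Ω] {p : Ω → ℝ} (hp : ∀ ω, 0 ≤ p ω) (A : Ω → S)
    (B : Ω → T) {ω : Ω} (hω : 0 < p ω) {h : ℝ} (hh : h ≤ ci p A B ω) :
    law p (fun v => (A v, B v)) (A ω, B ω) ≤ Real.exp (-h) * law p B (B ω) := by
  have h1 : 0 < law p (fun v => (A v, B v)) (A ω, B ω) := law_pos hp (fun v => (A v, B v)) hω
  have h2 : 0 < law p B (B ω) := law_pos hp B hω
  have h3 : 0 < cp p A B ω := div_pos h1 h2
  have h4 : cp p A B ω ≤ Real.exp (-h) := by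
    rw [← Real.log_le_iff_le_exp h3]
    unfold ci at hh
    linarith
  unfold cp at h4
  rwa [div_le_iff₀ h2] at h4

lemma law_ge_of_ci {Ω S T : Type} [Fintype Ω] {p : Ω → ℝ} (hp : ∀ ω, 0 ≤ p ω) (A : Ω → S)
    (B : Ω → T) {ω : Ω} (hω : 0 < p ω) {h : ℝ} (hh : ci p A B ω ≤ h) :
    Real.exp (-h) * law p B (B ω) ≤ law p (fun v => (A v, B v)) (A ω, B ω) := by
  have h1 : 0 < law p (fun v => (A v, B v)) (A ω, B ω) := law_pos hp (fun v => (A v, B v)) hω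
  have h2 : 0 < law p B (B ω) := law_pos hp B hω
  have h3 : 0 < cp p A B ω := div_pos h1 h2
  have h4 : Real.exp (-h) ≤ cp p A B ω := by
    rw [← Real.le_log_iff_exp_le h3]
    unfold ci at hh
    linarith
  unfold cp at h4
  rwa [le_div_iff₀ h2] at h4

/-- The inequality on one good type. -/
lemma typ_point (hRTY : RTYStmt) (hCNV : CNVStmt) (hRST : RSTStmt) {m : ℕ} {C₁ : ℝ}
    (hONE : ∀ (μ σ θ : ℝ) (J : ℕ), 16 ≤ J → Good m μ σ θ J →
      ∀ (Ω ζ : Type) [Fintype Ω] (p : Ω → ℝ) (u d : Ω → Fin m → ℝ) (t : Ω → ℕ) (Z : Ω → ζ),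
      Fam J p u d t → ∀ w ≤ J, ∀ hD hw ht hJ : ℝ, Sup p (Fl d J) Z (Real.exp (-hD)) →
      Sup p (fun ω => (X J u d t w ω, t ω)) Z (Real.exp (-hw)) →
      Sup p t (fun ω => (li u d ω, Z ω)) (Real.exp (-ht)) →
      CH p (fun ω => (X J u d t J ω, t ω)) Z ≤ hJ → hD ≤ m * J * Real.log 2 →
      J * Real.log 2 - ht + C₁ + Real.log J ≤ θ * J →
      μ * ((J : ℝ) - w) ≤ hJ - hw +
        max 0 (m * ((J : ℝ) - w) * Real.log 2 + hw - J * Real.log 2 - hD) +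
        max 0 (J * Real.log 2 - ht) + σ * J + C₁)
    {μ σ θ θ₁ s : ℝ} {J : ℕ} (hJ16 : 16 ≤ J) (hG : Good m μ σ θ J) (hs : 0 ≤ s)
    (hθ₁ : 0 ≤ θ₁ * J) (hθ : θ₁ * J + 2 * s + C₁ + Real.log J ≤ θ * J)
    {Ω ζ : Type} [Fintype Ω] {p : Ω → ℝ} {u d : Ω → Fin m → ℝ} {t : Ω → ℕ} {Z : Ω → ζ}
    (hF : Fam J p u d t) {w : ℕ} (hw : w ≤ J) (E : Set Ω) (a b c : ℝ)
    (hE : 3 * Real.exp (-s) ≤ Pr p E) (hEp : ∀ ω ∈ E, 0 < p ω)
    (ht : ∀ ω ∈ E, J * Real.log 2 - θ₁ * J ≤ ci p t (fun v => (li u d v, Z v)) ω)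
    (hD1 : ∀ ω ∈ E, a * s ≤ ci p (Fl d J) Z ω)
    (hD2 : ∀ ω ∈ E, ci p (Fl d J) Z ω ≤ a * s + s)
    (hD3 : ∀ ω ∈ E, ci p (Fl d J) Z ω ≤ m * J * Real.log 2 + s)
    (hw1 : ∀ ω ∈ E, b * s ≤ ci p (fun v => (X J u d t w v, t v)) Z ω)
    (hw2 : ∀ ω ∈ E, ci p (fun v => (X J u d t w v, t v)) Z ω ≤ b * s + s)
    (hJ1 : ∀ ω ∈ E, c * s ≤ ci p (fun v => (X J u d t J v, t v)) Z ω)
    (hJ2 : ∀ ω ∈ E, ci p (fun v => (X J u d t J v, t v)) Z ω ≤ c * s + s) :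
    ∀ ω ∈ E, μ * ((J : ℝ) - w) ≤ ci p (fun v => (X J u d t J v, t v)) Z ω -
      ci p (fun v => (X J u d t w v, t v)) Z ω +
      max 0 (m * ((J : ℝ) - w) * Real.log 2 +
        ci p (fun v => (X J u d t w v, t v)) Z ω - J * Real.log 2 - ci p (Fl d J) Z ω) +
      σ * J + θ₁ * J + 7 * s + C₁ := by
  intro ω hω
  have hp := hF.law.nonneg
  obtain ⟨E', hsub, hPr, hR1, hR2⟩ := hRTY Ω _ ζ p (li u d) Z hF.law E s hs hE
  have hE'pos : 0 < Pr p E' := by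
    have := Real.exp_pos (-s)
    linarith
  obtain ⟨hlaw, -, -, -⟩ := hRST Ω Unit Unit p hF.law E' hE'pos
  have hF' : Fam J (rs p E') u d t :=
    ⟨hlaw, hF.u_nonneg, hF.u_lt, hF.d_nonneg, hF.d_lt, hF.t_lt⟩
  have e1 : ∀ x : ℝ, Real.exp (2 * s) * Real.exp (-(x * s)) = Real.exp (-(x * s - 2 * s)) := by
    intro x
    rw [← Real.exp_add]
    congr 1
    ring
  have e2 : Real.exp (2 * s) * Real.exp (-(J * Real.log 2 - θ₁ * J)) =
      Real.exp (-(J * Real.log 2 - θ₁ * J - 2 * s)) := by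
    rw [← Real.exp_add]
    congr 1
    ring
  have sD := hR1 _ (Fl d J) (Real.exp (-(a * s))) (Real.exp_pos _).le
    (fun ω hω => law_le_of_ci hp _ _ (hEp ω hω) (hD1 ω hω))
  rw [e1] at sD
  have sw := hR1 _ (fun v => (X J u d t w v, t v)) (Real.exp (-(b * s))) (Real.exp_pos _).le
    (fun ω hω => law_le_of_ci hp _ _ (hEp ω hω) (hw1 ω hω))
  rw [e1] at sw
  have st := hR2 _ t (Real.exp (-(J * Real.log 2 - θ₁ * J))) (Real.exp_pos _).le
    (fun ω hω => law_le_of_ci hp t (fun v => (li u d v, Z v)) (hEp ω hω) (ht ω hω))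
  rw [e2] at st
  have sJ := hCNV Ω _ _ p (fun v => (X J u d t J v, t v)) Z E' (c * s + s) hF.law hE'pos
    (fun ω hω _ => law_ge_of_ci hp _ _ (hEp ω (hsub hω)) (hJ2 ω (hsub hω)))
  have hmain := hONE μ σ θ J hJ16 hG Ω ζ (rs p E') u d t Z hF' w hw (a * s - 2 * s)
    (b * s - 2 * s) (J * Real.log 2 - θ₁ * J - 2 * s) (c * s + s) sD sw st sJ
    (by have h1 := hD1 ω hω; have h2 := hD3 ω hω; linarith)
    (by linarith)
  have hmax1 : max 0 (m * ((J : ℝ) - w) * Real.log 2 + (b * s - 2 * s) - J * Real.log 2 -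
      (a * s - 2 * s)) ≤ max 0 (m * ((J : ℝ) - w) * Real.log 2 +
        ci p (fun v => (X J u d t w v, t v)) Z ω - J * Real.log 2 - ci p (Fl d J) Z ω) + s := by
    refine max_le ?_ ?_
    · have := le_max_left 0 (m * ((J : ℝ) - w) * Real.log 2 +
        ci p (fun v => (X J u d t w v, t v)) Z ω - J * Real.log 2 - ci p (Fl d J) Z ω)
      linarith
    · have := le_max_right 0 (m * ((J : ℝ) - w) * Real.log 2 +
        ci p (fun v => (X J u d t w v, t v)) Z ω - J * Real.log 2 - ci p (Fl d J) Z ω)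
      have h1 := hw1 ω hω
      have h2 := hD2 ω hω
      linarith
  have hmax2 : max 0 (J * Real.log 2 - (J * Real.log 2 - θ₁ * J - 2 * s)) ≤ θ₁ * J + 2 * s := by
    refine max_le ?_ ?_
    · linarith
    · linarith
  have h1 := hJ1 ω hω
  have h2 := hw2 ω hω
  linarith

theorem typ_thm (hONE : ONEStmt) (hRTY : RTYStmt) (hCNV : CNVStmt) (hTAL : TALStmt)
    (hVAL : VALStmt) (hRST : RSTStmt) : TYPStmt := by
  classical
  intro m ε hε
  obtain ⟨C₁, hC₁, hone⟩ := hONE m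
  set n₀ : ℕ := ⌈(2 * (m : ℝ) + 1) / ε⌉₊ + 2 with hn₀
  refine ⟨C₁ + 3 * (n₀ : ℝ) ^ 3 + 2, by positivity, ?_⟩
  intro μ σ θ θ₁ J hJ16 hσ hG hθ₁ hθ Ω ζ _ p u d t Z hF w hw
  have hp := hF.law.nonneg
  have hJ1 : (1 : ℝ) ≤ J := by exact_mod_cast (show 1 ≤ J by omega)
  have hJpos : (0 : ℝ) < J := by linarith
  set s : ℝ := ε * J with hs
  have hspos : 0 < s := by positivity
  obtain ⟨hV1, ⟨FD, hFD, hFDc⟩, hV3⟩ := hVAL m J Ω p u d t hF
  obtain ⟨FJ, hFJ, hFJc⟩ := hV1 J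
  obtain ⟨Fw, hFw, hFwc⟩ := hV1 w
  set fD : Ω → ℝ := ci p (Fl d J) Z with hfD
  set fw : Ω → ℝ := ci p (fun v => (X J u d t w v, t v)) Z with hfw
  set fJ : Ω → ℝ := ci p (fun v => (X J u d t J v, t v)) Z with hfJ
  set ft : Ω → ℝ := ci p t (fun v => (li u d v, Z v)) with hft
  obtain ⟨tD1, tD2, tD3, tD4⟩ := hTAL Ω _ _ p (Fl d J) Z FD hF.law hFD
  obtain ⟨tw1, tw2, tw3, tw4⟩ := hTAL Ω _ _ p (fun v => (X J u d t w v, t v)) Z Fw hF.law hFw
  obtain ⟨tJ1, tJ2, tJ3, tJ4⟩ := hTAL Ω _ _ p (fun v => (X J u d t J v, t v)) Z FJ hF.law hFJ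
  have hfD0 : ∀ ω, 0 < p ω → 0 ≤ fD ω := by
    intro ω hω
    have := tD1 ω hω
    simp only [hfD, ci]
    have := Real.log_nonpos this.1.le this.2
    linarith
  have hfw0 : ∀ ω, 0 < p ω → 0 ≤ fw ω := by
    intro ω hω
    have := tw1 ω hω
    simp only [hfw, ci]
    have := Real.log_nonpos this.1.le this.2
    linarith
  have hfwJ : ∀ ω, 0 < p ω → fw ω ≤ fJ ω := by
    intro ω hω
    simp only [hfw, hfJ, ci, neg_le_neg_iff]
    refine Real.log_le_log (tJ1 ω hω).1 ?_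
    unfold cp
    have h2 : 0 < law p Z (Z ω) := law_pos hp Z hω
    refine div_le_div_of_nonneg_right ?_ h2.le
    obtain ⟨f, hf⟩ := hV3 w J hw
    refine law_mono_of_det (X := fun v => ((X J u d t J v, t v), Z v))
      (Y := fun v => ((X J u d t w v, t v), Z v)) hp ?_ hω
    intro ω₁ ω₂ _ _ h
    simp only [Prod.mk.injEq] at h ⊢
    exact ⟨⟨by rw [hf, hf, h.1.1], h.1.2⟩, h.2⟩
  set bD : ℝ := Real.log FD.card with hbD
  set bJ : ℝ := Real.log FJ.card with hbJ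
  have hbDv : bD = m * J * Real.log 2 := by
    rw [hbD, hFDc]
    push_cast
    rw [Real.log_pow]
    push_cast
    ring
  have hlog2 : Real.log 2 ≤ 1 := by
    have := Real.log_le_sub_one_of_pos (show (0 : ℝ) < 2 by norm_num)
    linarith
  have hlog2' : 0 ≤ Real.log 2 := Real.log_nonneg (by norm_num)
  have hbJv : bJ ≤ (2 * m + 1) * J := by
    rw [hbJ, hFJc]
    push_cast
    rw [Real.log_pow]
    push_cast
    have hm : (0 : ℝ) ≤ m := Nat.cast_nonneg m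
    calc ((m : ℝ) * (J + 1) + J) * Real.log 2 ≤ ((m : ℝ) * (J + 1) + J) * 1 := by
          apply mul_le_mul_of_nonneg_left hlog2
          positivity
      _ ≤ (2 * m + 1) * J := by nlinarith
  have hbDv' : bD ≤ (2 * m + 1) * J := by
    rw [hbDv]
    have hm : (0 : ℝ) ≤ m := Nat.cast_nonneg m
    calc (m : ℝ) * J * Real.log 2 ≤ (m : ℝ) * J * 1 := by
          apply mul_le_mul_of_nonneg_left hlog2
          positivity
      _ ≤ (2 * m + 1) * J := by nlinarith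
  -- the base event
  set B₀ : Set Ω := {ω | 0 < p ω ∧ J * Real.log 2 - θ₁ * J ≤ ft ω ∧ fD ω ≤ bD + s ∧
    fJ ω ≤ bJ + s} with hB₀
  set ty : Ω → ℕ × ℕ × ℕ := fun ω => (⌊fD ω / s⌋₊, ⌊fw ω / s⌋₊, ⌊fJ ω / s⌋₊) with hty
  set Ty : Finset (ℕ × ℕ × ℕ) := Finset.range n₀ ×ˢ Finset.range n₀ ×ˢ Finset.range n₀ with hTy
  have hTyc : Ty.card = n₀ ^ 3 := by
    rw [hTy, Finset.card_product, Finset.card_product, Finset.card_range]
    ring
  have hfloor : ∀ x : ℝ, x ≤ (2 * m + 1) * J + s → ⌊x / s⌋₊ < n₀ := by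
    intro x hx
    rcases le_or_gt x 0 with h0 | h0
    · have : x / s ≤ 0 := div_nonpos_of_nonpos_of_nonneg h0 hspos.le
      rw [Nat.floor_of_nonpos this]
      omega
    · have h1 : x / s ≤ (2 * m + 1) / ε + 1 := by
        rw [div_le_iff₀ hspos, hs, add_mul, one_mul]
        have : (2 * (m : ℝ) + 1) / ε * (ε * J) = (2 * m + 1) * J := by
          field_simp
        rw [this]
        exact hx
      have h2 : (⌊x / s⌋₊ : ℝ) ≤ x / s := Nat.floor_le (by positivity)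
      have h3 : (2 * (m : ℝ) + 1) / ε ≤ ⌈(2 * (m : ℝ) + 1) / ε⌉₊ := Nat.le_ceil _
      have h4 : (⌊x / s⌋₊ : ℝ) < n₀ := by
        rw [hn₀]
        push_cast
        linarith
      exact_mod_cast h4
  have hmem : ∀ ω ∈ B₀, ty ω ∈ Ty := by
    intro ω hω
    simp only [hTy, hty, Finset.mem_product, Finset.mem_range]
    obtain ⟨h0, h1, h2, h3⟩ := hω
    refine ⟨hfloor _ (by linarith), hfloor _ ?_, hfloor _ (by linarith)⟩
    have := hfwJ ω h0
    linarith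
  set Et : ℕ × ℕ × ℕ → Set Ω := fun τ => {ω | ω ∈ B₀ ∧ ty ω = τ} with hEt
  have hgood : ∀ τ, 3 * Real.exp (-s) ≤ Pr p (Et τ) → ∀ ω ∈ Et τ,
      μ * ((J : ℝ) - w) ≤ fJ ω - fw ω + max 0 (m * ((J : ℝ) - w) * Real.log 2 +
        fw ω - J * Real.log 2 - fD ω) + σ * J + θ₁ * J + 7 * s + C₁ := by
    intro τ hτ
    have hfl1 : ∀ x : ℝ, 0 ≤ x → (⌊x / s⌋₊ : ℝ) * s ≤ x := by
      intro x hx
      have := Nat.floor_le (show 0 ≤ x / s by positivity)
      rwa [le_div_iff₀ hspos] at this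
    have hfl2 : ∀ x : ℝ, x ≤ (⌊x / s⌋₊ : ℝ) * s + s := by
      intro x
      have := (Nat.lt_floor_add_one (x / s)).le
      rw [div_le_iff₀ hspos] at this
      linarith
    refine typ_point hRTY hCNV hRST hone hJ16 hG hspos.le (by positivity)
      (by rw [hs]; nlinarith [hθ, show (0:ℝ) ≤ 3 * (n₀ : ℝ) ^ 3 by positivity]) hF hw (Et τ)
      (τ.1 : ℝ) (τ.2.1 : ℝ) (τ.2.2 : ℝ) hτ ?_ ?_ ?_ ?_ ?_ ?_ ?_ ?_ ?_
    · intro ω hω
      exact hω.1.1
    · intro ω hω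
      exact hω.1.2.1
    · intro ω hω
      rw [← hω.2]
      exact hfl1 _ (hfD0 ω hω.1.1)
    · intro ω hω
      rw [← hω.2]
      exact hfl2 _
    · intro ω hω
      rw [← hbDv]
      exact hω.1.2.2.1
    · intro ω hω
      rw [← hω.2]
      exact hfl1 _ (hfw0 ω hω.1.1)
    · intro ω hω
      rw [← hω.2]
      exact hfl2 _
    · intro ω hω
      rw [← hω.2]
      exact hfl1 _ ((hfw0 ω hω.1.1).trans (hfwJ ω hω.1.1))
    · intro ω hω
      rw [← hω.2]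
      exact hfl2 _
  -- the exceptional set
  set bad : Ω → ℝ := fun ω => (if ω ∈ {ω | ft ω < J * Real.log 2 - θ₁ * J} then 1 else 0) +
    (if ω ∈ {ω | bD + s < fD ω} then 1 else 0) + (if ω ∈ {ω | bJ + s < fJ ω} then 1 else 0) +
    ∑ τ ∈ Ty.filter (fun τ => Pr p (Et τ) < 3 * Real.exp (-s)), (if ω ∈ Et τ then 1 else 0)
    with hbad
  have hbad0 : ∀ ω, 0 ≤ bad ω := by
    intro ω
    simp only [hbad]
    have h1 : ∀ P : Prop, ∀ [Decidable P], (0 : ℝ) ≤ if P then 1 else 0 := by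
      intro P _
      split_ifs <;> norm_num
    have h2 : 0 ≤ ∑ τ ∈ Ty.filter (fun τ => Pr p (Et τ) < 3 * Real.exp (-s)),
      (if ω ∈ Et τ then (1 : ℝ) else 0) := Finset.sum_nonneg fun τ _ => h1 _
    have := h1 (ω ∈ {ω | ft ω < J * Real.log 2 - θ₁ * J})
    have := h1 (ω ∈ {ω | bD + s < fD ω})
    have := h1 (ω ∈ {ω | bJ + s < fJ ω})
    linarith
  have hμ : μ * ((J : ℝ) - w) ≤ |μ| * J := by
    have hw' : (w : ℝ) ≤ J := by exact_mod_cast hw
    have hw0 : (0 : ℝ) ≤ w := Nat.cast_nonneg w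
    calc μ * ((J : ℝ) - w) ≤ |μ| * ((J : ℝ) - w) :=
          mul_le_mul_of_nonneg_right (le_abs_self μ) (by linarith)
      _ ≤ |μ| * J := mul_le_mul_of_nonneg_left (by linarith) (abs_nonneg μ)
  have hpoint : ∀ ω, 0 < p ω → μ * ((J : ℝ) - w) ≤ (fJ ω - fw ω +
      max 0 (m * ((J : ℝ) - w) * Real.log 2 + fw ω - J * Real.log 2 - fD ω) +
      (σ + θ₁ + 7 * ε) * J + C₁) + |μ| * J * bad ω := by
    intro ω hω
    have hmx := le_max_left 0 (m * ((J : ℝ) - w) * Real.log 2 + fw ω - J * Real.log 2 - fD ω)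
    have hconst : 0 ≤ (σ + θ₁ + 7 * ε) * J := by positivity
    have hμJ : 0 ≤ |μ| * J := by positivity
    by_cases hg : 1 ≤ bad ω
    · have h1 := hfwJ ω hω
      have h2 : |μ| * J ≤ |μ| * J * bad ω := le_mul_of_one_le_right hμJ hg
      linarith
    · have hB : ω ∈ B₀ := by
        by_contra hnB
        apply hg
        have hex : ft ω < J * Real.log 2 - θ₁ * J ∨ bD + s < fD ω ∨ bJ + s < fJ ω := by
          by_contra hcon
          push Not at hcon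
          exact hnB ⟨hω, hcon.1, hcon.2.1, hcon.2.2⟩
        have h1 : ∀ P : Prop, ∀ [Decidable P], (0 : ℝ) ≤ if P then 1 else 0 := by
          intro P _
          split_ifs <;> norm_num
        have h2 : 0 ≤ ∑ τ ∈ Ty.filter (fun τ => Pr p (Et τ) < 3 * Real.exp (-s)),
          (if ω ∈ Et τ then (1 : ℝ) else 0) := Finset.sum_nonneg fun τ _ => h1 _
        have h3 := h1 (ω ∈ {ω | ft ω < J * Real.log 2 - θ₁ * J})
        have h4 := h1 (ω ∈ {ω | bD + s < fD ω})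
        have h5 := h1 (ω ∈ {ω | bJ + s < fJ ω})
        simp only [hbad]
        rcases hex with h | h | h
        · rw [if_pos (show ω ∈ {ω | ft ω < J * Real.log 2 - θ₁ * J} from h)]
          linarith
        · rw [if_pos (show ω ∈ {ω | bD + s < fD ω} from h)]
          linarith
        · rw [if_pos (show ω ∈ {ω | bJ + s < fJ ω} from h)]
          linarith
      have hτ : 3 * Real.exp (-s) ≤ Pr p (Et (ty ω)) := by
        by_contra hn
        push Not at hn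
        apply hg
        have h1 : ∀ P : Prop, ∀ [Decidable P], (0 : ℝ) ≤ if P then 1 else 0 := by
          intro P _
          split_ifs <;> norm_num
        have h2 : (1 : ℝ) ≤ ∑ τ ∈ Ty.filter (fun τ => Pr p (Et τ) < 3 * Real.exp (-s)),
            (if ω ∈ Et τ then (1 : ℝ) else 0) := by
          have := Finset.single_le_sum (f := fun τ => if ω ∈ Et τ then (1 : ℝ) else 0)
            (s := Ty.filter (fun τ => Pr p (Et τ) < 3 * Real.exp (-s)))
            (fun τ _ => h1 _) (Finset.mem_filter.mpr ⟨hmem ω hB, hn⟩)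
          rw [if_pos (show ω ∈ Et (ty ω) from ⟨hB, rfl⟩)] at this
          exact this
        have h3 := h1 (ω ∈ {ω | ft ω < J * Real.log 2 - θ₁ * J})
        have h4 := h1 (ω ∈ {ω | bD + s < fD ω})
        have h5 := h1 (ω ∈ {ω | bJ + s < fJ ω})
        simp only [hbad]
        linarith
      have h1 := hgood (ty ω) hτ ω ⟨hB, rfl⟩
      have h2 : 0 ≤ |μ| * J * bad ω := mul_nonneg hμJ (hbad0 ω)
      have h3 : (σ + θ₁ + 7 * ε) * J = σ * J + θ₁ * J + 7 * s := by rw [hs]; ring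
      rw [h3]
      linarith
  -- average
  have hsum := Ex_mono hp (f := fun _ => μ * ((J : ℝ) - w)) (g := fun ω => (fJ ω - fw ω +
      max 0 (m * ((J : ℝ) - w) * Real.log 2 + fw ω - J * Real.log 2 - fD ω) +
      (σ + θ₁ + 7 * ε) * J + C₁) + |μ| * J * bad ω) hpoint
  rw [Ex_const hF.law.sum_one] at hsum
  have hEbad : Ex p bad ≤ Pr p {ω | ft ω < J * Real.log 2 - θ₁ * J} +
      (3 * (n₀ : ℝ) ^ 3 + 2) * Real.exp (-s) := by
    have h1 : Ex p bad = Pr p {ω | ft ω < J * Real.log 2 - θ₁ * J} +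
        Pr p {ω | bD + s < fD ω} + Pr p {ω | bJ + s < fJ ω} +
        ∑ τ ∈ Ty.filter (fun τ => Pr p (Et τ) < 3 * Real.exp (-s)), Pr p (Et τ) := by
      simp only [hbad, Ex, Pr_eq_typ, mul_add, Finset.sum_add_distrib, Finset.mul_sum, mul_ite,
        mul_one, mul_zero]
      congr 1
      rw [Finset.sum_comm]
      refine Finset.sum_congr (by congr) fun τ _ => Finset.sum_congr rfl fun ω _ => ?_
      by_cases h : ω ∈ Et τ
      · simp only [h, if_true]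
      · simp only [h, if_false]
    rw [h1]
    have h2 := tD3 s
    have h3 := tJ3 s
    have h4 : ∑ τ ∈ Ty.filter (fun τ => Pr p (Et τ) < 3 * Real.exp (-s)), Pr p (Et τ) ≤
        (n₀ : ℝ) ^ 3 * (3 * Real.exp (-s)) := by
      calc ∑ τ ∈ Ty.filter (fun τ => Pr p (Et τ) < 3 * Real.exp (-s)), Pr p (Et τ)
          ≤ ∑ τ ∈ Ty.filter (fun τ => Pr p (Et τ) < 3 * Real.exp (-s)), 3 * Real.exp (-s) :=
            Finset.sum_le_sum fun τ hτ => (Finset.mem_filter.mp hτ).2.le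
        _ ≤ ∑ τ ∈ Ty, 3 * Real.exp (-s) :=
            Finset.sum_le_sum_of_subset_of_nonneg (Finset.filter_subset _ _)
              fun _ _ _ => by positivity
        _ = (n₀ : ℝ) ^ 3 * (3 * Real.exp (-s)) := by
            rw [Finset.sum_const, hTyc, nsmul_eq_mul]
            push_cast
            ring
    have h2' : Pr p {ω | bD + s < fD ω} ≤ Real.exp (-s) := h2
    have h3' : Pr p {ω | bJ + s < fJ ω} ≤ Real.exp (-s) := h3
    linarith
  have hsplit : Ex p (fun ω => (fJ ω - fw ω +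
      max 0 (m * ((J : ℝ) - w) * Real.log 2 + fw ω - J * Real.log 2 - fD ω) +
      (σ + θ₁ + 7 * ε) * J + C₁) + |μ| * J * bad ω) =
      Ex p fJ - Ex p fw + Ex p (fun ω => max 0 (m * ((J : ℝ) - w) * Real.log 2 +
        fw ω - J * Real.log 2 - fD ω)) + ((σ + θ₁ + 7 * ε) * J + C₁) + |μ| * J * Ex p bad := by
    rw [Ex_add, Ex_smul]
    congr 1
    have e1 : (fun ω => fJ ω - fw ω +
        max 0 (m * ((J : ℝ) - w) * Real.log 2 + fw ω - J * Real.log 2 - fD ω) +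
        (σ + θ₁ + 7 * ε) * J + C₁) = fun ω => ((fJ ω - fw ω) +
        max 0 (m * ((J : ℝ) - w) * Real.log 2 + fw ω - J * Real.log 2 - fD ω)) +
        ((σ + θ₁ + 7 * ε) * J + C₁) := by
      funext ω
      ring
    rw [e1, Ex_add, Ex_add, Ex_sub, Ex_const hF.law.sum_one]
  rw [hsplit] at hsum
  rw [tJ2, tw2]
  have hμJ : 0 ≤ |μ| * J := by positivity
  have h5 := mul_le_mul_of_nonneg_left hEbad hμJ
  have h6 : |μ| * J * (3 * (n₀ : ℝ) ^ 3 + 2) * Real.exp (-s) ≤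
      |μ| * J * ((C₁ + 3 * (n₀ : ℝ) ^ 3 + 2) * Real.exp (-s)) := by
    have : (3 * (n₀ : ℝ) ^ 3 + 2) ≤ (C₁ + 3 * (n₀ : ℝ) ^ 3 + 2) := by linarith
    calc |μ| * J * (3 * (n₀ : ℝ) ^ 3 + 2) * Real.exp (-s)
        = |μ| * J * ((3 * (n₀ : ℝ) ^ 3 + 2) * Real.exp (-s)) := by ring
      _ ≤ _ := mul_le_mul_of_nonneg_left
          (mul_le_mul_of_nonneg_right this (Real.exp_pos _).le) hμJ
  have h7 : (0 : ℝ) ≤ 3 * (n₀ : ℝ) ^ 3 + 2 := by positivity
  show μ * ((J : ℝ) - w) ≤ Ex p fJ - Ex p fw + Ex p (fun ω => max 0 (m * ((J : ℝ) - w) *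
    Real.log 2 + fw ω - J * Real.log 2 - fD ω)) + (σ + θ₁ + 7 * ε) * J +
    (C₁ + 3 * (n₀ : ℝ) ^ 3 + 2) + |μ| * J * (Pr p {ω | ft ω < J * Real.log 2 - θ₁ * J} +
    (C₁ + 3 * (n₀ : ℝ) ^ 3 + 2) * Real.exp (-s))
  rw [mul_add (|μ| * (J : ℝ))] at h5 ⊢
  linarith

end Pool.KAF
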